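import Mathlib

set_option autoImplicit false

open MeasureTheory Set Filter Topology TopologicalSpace

namespace Pool.Agent.W921.Jump

theorem exists_of_residual {X : Type} [TopologicalSpace X] [BaireSpace X] {P : X → Prop}
    (h : ∀ᶠ x in residual X, P x) {U : Set X} (hU : IsOpen U) (hne : U.Nonempty) :
    ∃ x ∈ U, P x := by
  obtain ⟨x, hx1, hx2⟩ := (dense_of_mem_residual h).inter_open_nonempty U hU hne
  exact ⟨x, hx1, hx2⟩

/-- The space. -/
abbrev P (H G : Type) : Type := H → G → Bool

variable {H G : Type} [Group G]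

/-- shift -/
def sh (g : G) (z : G → Bool) : G → Bool := fun t => z (g⁻¹ * t)

/-- The action of the full power of the group. -/
def act (a : H → G) (β : P H G) : P H G := fun h => sh (a h) (β h)

theorem continuous_sh (g : G) : Continuous (sh g) := continuous_pi fun _ => continuous_apply _

theorem act_mul (a b : H → G) (β : P H G) : act (a * b) β = act a (act b β) := by
  funext h t
  simp only [act, sh, Pi.mul_apply, mul_inv_rev, mul_assoc]

theorem act_one (β : P H G) : act (1 : H → G) β = β := by
  funext h t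
  simp [act, sh]

theorem continuous_act (a : H → G) : Continuous (act a : P H G → P H G) :=
  continuous_pi fun h => (continuous_sh (a h)).comp (continuous_apply h)

/-- The action as a homeomorphism. -/
def actHomeo (a : H → G) : P H G ≃ₜ P H G where
  toFun := act a
  invFun := act a⁻¹
  left_inv β := by rw [← act_mul, inv_mul_cancel, act_one]
  right_inv β := by rw [← act_mul, mul_inv_cancel, act_one]
  continuous_toFun := continuous_act a
  continuous_invFun := continuous_act a⁻¹

open Classical in
theorem act_single (h : H) (g : G) (β : P H G) :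
    act (Pi.mulSingle h g) β = Function.update β h (sh g (β h)) := by
  funext h' t
  by_cases hh : h' = h
  · subst hh
    simp [act]
  · simp [act, sh, Function.update_of_ne hh, Pi.mulSingle_eq_of_ne hh]

theorem exists_finset {U : Set (G → Bool)} (hU : IsOpen U) {z : G → Bool} (hz : z ∈ U) :
    ∃ F : Finset G, ∀ z', (∀ t ∈ F, z' t = z t) → z' ∈ U := by
  obtain ⟨F, u, hu, hsub⟩ := isOpen_pi_iff.mp hU z hz
  refine ⟨F, fun z' hz' => hsub fun t ht => ?_⟩
  rw [hz' t ht]
  exact (hu t ht).2

section

variable [Infinite G]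

open Classical in
theorem inv_aux (h : H) {S U V : Set (P H G)} (hU : IsOpen U) (hV : IsOpen V)
    (hSU : ∀ᶠ β in residual (P H G), (β ∈ S ↔ β ∈ U))
    (hSV : ∀ᶠ β in residual (P H G), (β ∉ S ↔ β ∈ V))
    (hinv : ∀ g β, act (Pi.mulSingle h g) β ∈ S ↔ β ∈ S) (β1 : P H G) (z1 : G → Bool)
    (h1 : β1 ∈ U) (h2 : Function.update β1 h z1 ∈ V) : False := by
  have hu : Continuous (fun z : G → Bool => Function.update β1 h z) :=
    continuous_const.update h continuous_id
  obtain ⟨F1, hF1⟩ := exists_finset (hU.preimage hu) (z := β1 h)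
    (by rw [mem_preimage, Function.update_eq_self]; exact h1)
  obtain ⟨F2, hF2⟩ := exists_finset (hV.preimage hu) (z := z1) h2
  obtain ⟨g, hg⟩ := Infinite.exists_notMem_finset (Finset.image₂ (fun t s => t * s⁻¹) F2 F1)
  let z : G → Bool := fun s => if s ∈ F1 then β1 h s else z1 (g * s)
  have hz1 : Function.update β1 h z ∈ U := hF1 z fun t ht => by simp only [z, if_pos ht]
  have hz2 : Function.update β1 h (sh g z) ∈ V := by
    refine hF2 _ fun t ht => ?_
    have hn : g⁻¹ * t ∉ F1 := by
      intro hmem
      apply hg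
      rw [Finset.mem_image₂]
      exact ⟨t, ht, g⁻¹ * t, hmem, by simp⟩
    simp only [sh, z, if_neg hn, mul_inv_cancel_left]
  have hopen : IsOpen (U ∩ act (Pi.mulSingle h g) ⁻¹' V) := hU.inter (hV.preimage (continuous_act _))
  have hne : (U ∩ act (Pi.mulSingle h g) ⁻¹' V).Nonempty := by
    refine ⟨Function.update β1 h z, hz1, ?_⟩
    rw [mem_preimage, act_single, Function.update_self, Function.update_idem]
    exact hz2
  have hSV' := (tendsto_residual_of_isOpenMap (actHomeo (Pi.mulSingle h g : H → G)).continuous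
    (actHomeo (Pi.mulSingle h g : H → G)).isOpenMap).eventually hSV
  obtain ⟨γ, ⟨hγ1, hγ2⟩, hγ3, hγ4⟩ := exists_of_residual (hSU.and hSV') hopen hne
  exact hγ4.2 hγ2 ((hinv g γ).2 (hγ3.2 hγ1))

open Classical in
/-- the two projections of the fibre product -/
noncomputable def p2 (h : H) (q : P H G × (G → Bool)) : P H G := Function.update q.1 h q.2

open Classical in
/-- the swap of the fibre product -/
noncomputable def swapHomeo (h : H) : P H G × (G → Bool) ≃ₜ P H G × (G → Bool) where
  toFun q := (Function.update q.1 h q.2, q.1 h)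
  invFun q := (Function.update q.1 h q.2, q.1 h)
  left_inv q := by simp
  right_inv q := by simp
  continuous_toFun := (continuous_fst.update h continuous_snd).prodMk
    ((continuous_apply h).comp continuous_fst)
  continuous_invFun := (continuous_fst.update h continuous_snd).prodMk
    ((continuous_apply h).comp continuous_fst)

theorem continuous_p2 (h : H) : Continuous (p2 h : P H G × (G → Bool) → P H G) :=
  continuous_fst.comp (swapHomeo h).continuous

theorem isOpenMap_p2 (h : H) : IsOpenMap (p2 h : P H G × (G → Bool) → P H G) :=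
  isOpenMap_fst.comp (swapHomeo h).isOpenMap

open Classical in
theorem claim_inv [Countable H] [Countable G] (h : H) {S : Set (P H G)} (hS : MeasurableSet S)
    (hinv : ∀ g β, act (Pi.mulSingle h g) β ∈ S ↔ β ∈ S) :
    ∀ᶠ q in residual (P H G × (G → Bool)), (q.1 ∈ S ↔ p2 h q ∈ S) := by
  obtain ⟨U, hU, hSU⟩ := hS.residualEq_isOpen
  obtain ⟨V, hV, hSV⟩ := hS.compl.residualEq_isOpen
  have e1 : ∀ᶠ β in residual (P H G), (β ∈ S ↔ β ∈ U) := by
    filter_upwards [hSU] with β hβ
    exact iff_of_eq hβ
  have e2 : ∀ᶠ β in residual (P H G), (β ∉ S ↔ β ∈ V) := by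
    filter_upwards [hSV] with β hβ
    exact iff_of_eq hβ
  have e3 : ∀ᶠ β in residual (P H G), (β ∈ Sᶜ ↔ β ∈ V) := e2
  have e4 : ∀ᶠ β in residual (P H G), (β ∉ Sᶜ ↔ β ∈ U) := by
    filter_upwards [e1] with β hβ
    rw [mem_compl_iff, not_not]
    exact hβ
  have hinv' : ∀ g β, act (Pi.mulSingle h g) β ∈ Sᶜ ↔ β ∈ Sᶜ := fun g β => not_congr (hinv g β)
  have t1 := tendsto_residual_of_isOpenMap (continuous_fst (X := P H G) (Y := G → Bool))
    isOpenMap_fst
  have t2 := tendsto_residual_of_isOpenMap (continuous_p2 (G := G) h) (isOpenMap_p2 h)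
  filter_upwards [t1.eventually e1, t1.eventually e2, t2.eventually e1, t2.eventually e2]
    with q h1 h2 h3 h4
  constructor
  · intro hq
    by_contra hn
    exact inv_aux h hU hV e1 e2 hinv q.1 q.2 (h1.1 hq) (h4.1 hn)
  · intro hq
    by_contra hn
    exact inv_aux h hV hU e3 e4 hinv' q.1 q.2 (h2.1 hn) (h3.1 hq)

theorem generic_ne [Countable G] {φ : P H G → (G → Bool)} (hφ : Continuous φ) :
    ∀ᶠ q in residual (P H G × (G → Bool)), q.2 ≠ φ q.1 := by
  classical
  refine residual_of_dense_open (isOpen_ne_fun continuous_snd (hφ.comp continuous_fst)) ?_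
  rw [dense_iff_inter_open]
  rintro W hW ⟨⟨β, z⟩, hq⟩
  by_cases hz : z = φ β
  · have hc : Continuous (fun z : G → Bool => (β, z)) := continuous_const.prodMk continuous_id
    obtain ⟨F, hF⟩ := exists_finset (hW.preimage hc) (z := z) hq
    obtain ⟨t, ht⟩ := Infinite.exists_notMem_finset F
    refine ⟨(β, Function.update z t (!z t)), hF _ fun s hs => ?_, ?_⟩
    · have : s ≠ t := fun h => ht (h ▸ hs)
      exact Function.update_of_ne this _ _
    · intro heq
      have := congrFun heq t
      simp [← hz] at this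
  · exact ⟨(β, z), hq, hz⟩

variable {Y : Type} [TopologicalSpace Y] [PolishSpace Y] [MeasurableSpace Y] [BorelSpace Y]

open Classical in
/-- The key lemma (generic ergodicity along one coordinate). -/
theorem generic_moves [Group H] [Countable H] [Countable G] {f : P H G → Y} (hf : Measurable f)
    (hcl : ∀ β β', f β = f β' → ∃ u : H, ∀ v : H, ∃ g : G, ∀ t : G,
      β (u⁻¹ * v) (g⁻¹ * t) = β' v t) (h : H) :
    ∀ᶠ β in residual (P H G), ∃ g : G, f (act (Pi.mulSingle h g) β) ≠ f β := by
  let M : Set (P H G) := {β | ∀ g : G, f (act (Pi.mulSingle h g) β) = f β}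
  have hM : MeasurableSet M := by
    have : M = ⋂ g : G, {β | f (act (Pi.mulSingle h g) β) = f β} := by
      ext β; simp [M]
    rw [this]
    exact MeasurableSet.iInter fun g =>
      measurableSet_eq_fun (hf.comp (continuous_act _).measurable) hf
  have hMinv0 : ∀ g β, β ∈ M → act (Pi.mulSingle h g) β ∈ M := by
    intro g β hβ g'
    rw [← act_mul, ← Pi.mulSingle_mul, hβ g, hβ (g' * g)]
  have hMinv : ∀ g β, act (Pi.mulSingle h g) β ∈ M ↔ β ∈ M := by
    intro g β
    refine ⟨fun hβ => ?_, hMinv0 g β⟩
    have := hMinv0 g⁻¹ _ hβ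
    rwa [← act_mul, ← Pi.mulSingle_mul, inv_mul_cancel, Pi.mulSingle_one, act_one] at this
  have hSinv : ∀ B : Set Y, ∀ g β, act (Pi.mulSingle h g) β ∈ M ∩ f ⁻¹' B ↔ β ∈ M ∩ f ⁻¹' B := by
    intro B g β
    constructor
    · rintro ⟨h1, h2⟩
      have h3 := (hMinv g β).1 h1
      refine ⟨h3, ?_⟩
      rw [mem_preimage, h3 g] at h2
      exact h2
    · rintro ⟨h1, h2⟩
      refine ⟨(hMinv g β).2 h1, ?_⟩
      rw [mem_preimage, h1 g]
      exact h2
  have e1 : ∀ᶠ q in residual (P H G × (G → Bool)), ∀ B : countableBasis Y,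
      (q.1 ∈ M ∩ f ⁻¹' B.1 ↔ p2 h q ∈ M ∩ f ⁻¹' B.1) := by
    have : Countable (countableBasis Y) := (countable_countableBasis Y).to_subtype
    rw [eventually_countable_forall]
    intro B
    exact claim_inv h (hM.inter (hf (isOpen_of_mem_countableBasis B.2).measurableSet)) (hSinv B.1)
  have e2 := claim_inv h hM hMinv
  have e3 : ∀ᶠ q in residual (P H G × (G → Bool)), ∀ (u : H) (g : G),
      q.2 ≠ sh g (q.1 (u⁻¹ * h)) := by
    rw [eventually_countable_forall]
    intro u
    rw [eventually_countable_forall]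
    intro g
    exact generic_ne ((continuous_sh g).comp (continuous_apply (u⁻¹ * h)))
  have e4 : ∀ᶠ q in residual (P H G × (G → Bool)), q.1 ∉ M := by
    filter_upwards [e1, e2, e3] with q h1 h2 h3 hq
    have hq2 := h2.1 hq
    have heq : f q.1 = f (p2 h q) := by
      by_contra hne
      obtain ⟨B, hB, hB1, hB2⟩ := (isBasis_countableBasis Y).exists_subset_of_mem_open
        (show f q.1 ∈ ({f (p2 h q)}ᶜ : Set Y) from hne) isOpen_compl_singleton
      have := ((h1 ⟨B, hB⟩).1 ⟨hq, hB1⟩).2
      exact hB2 this rfl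
    obtain ⟨u, hu⟩ := hcl _ _ heq
    obtain ⟨g, hg⟩ := hu h
    refine h3 u g (funext fun t => ?_)
    have := hg t
    simp only [p2, Function.update_self] at this
    exact this.symm
  obtain ⟨U, hU, hMU⟩ := hM.residualEq_isOpen
  have e5 : ∀ᶠ β in residual (P H G), (β ∈ M ↔ β ∈ U) := by
    filter_upwards [hMU] with β hβ
    exact iff_of_eq hβ
  have t1 := tendsto_residual_of_isOpenMap (continuous_fst (X := P H G) (Y := G → Bool))
    isOpenMap_fst
  have hUe : U = ∅ := by
    by_contra hne
    obtain ⟨β, hβ⟩ := nonempty_iff_ne_empty.2 hne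
    obtain ⟨q, hq1, hq2, hq3⟩ := exists_of_residual (e4.and (t1.eventually e5))
      (hU.preimage (continuous_fst (X := P H G) (Y := G → Bool))) ⟨(β, fun _ => true), hβ⟩
    exact hq2 (hq3.2 hq1)
  filter_upwards [e5] with β hβ
  by_contra hn
  push Not at hn
  have := hβ.1 hn
  rw [hUe] at this
  exact this

/-- No Borel map on the space is such that its values on the orbits of the full power of the group
stay in countably many images and it separates the inequivalent points. -/
theorem core [Group H] [Countable H] [Infinite H] [Countable G] {f : P H G → Y}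
    (hf : Measurable f)
    (hcl : ∀ β β', f β = f β' → ∃ u : H, ∀ v : H, ∃ g : G, ∀ t : G,
      β (u⁻¹ * v) (g⁻¹ * t) = β' v t)
    {ι : Type} [Countable ι] {κ : ι → Y → Y} (hκ : ∀ k, Measurable (κ k))
    (hcov : ∀ (a : H → G) (β : P H G), ∃ k, f (act a β) = κ k (f β)) : False := by
  classical
  let _ : TopologicalSpace G := ⊥
  have : DiscreteTopology G := ⟨rfl⟩
  let _ : MeasurableSpace G := ⊤
  have : BorelSpace G := ⟨by rw [borel_eq_top_of_discrete]⟩
  have : PolishSpace G := inferInstance
  have hact : Continuous (fun w : (H → G) × P H G => act w.1 w.2) := by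
    refine continuous_pi fun h => continuous_pi fun t => ?_
    have h1 : Continuous (fun p : G × (G → Bool) => p.2 (p.1⁻¹ * t)) := by
      rw [continuous_prod_of_discrete_left]
      intro g
      have h3 : Continuous (fun z : G → Bool => z (g⁻¹ * t)) := continuous_apply _
      exact h3
    have h2 : Continuous (fun w : (H → G) × P H G => (w.1 h, w.2 h)) :=
      ((continuous_apply h).comp continuous_fst).prodMk ((continuous_apply h).comp continuous_snd)
    exact h1.comp h2
  have hinv : Continuous (fun a : H → G => a⁻¹) :=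
    continuous_pi fun h => (continuous_of_discreteTopology (f := fun g : G => g⁻¹)).comp
      (continuous_apply h)
  let Φ : (H → G) × P H G ≃ₜ (H → G) × P H G :=
    { toFun := fun w => (w.1, act w.1 w.2)
      invFun := fun w => (w.1, act w.1⁻¹ w.2)
      left_inv := fun w => by
        simp only [← act_mul, inv_mul_cancel, act_one]
      right_inv := fun w => by
        simp only [← act_mul, mul_inv_cancel, act_one]
      continuous_toFun := continuous_fst.prodMk hact
      continuous_invFun := continuous_fst.prodMk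
        (hact.comp ((hinv.comp continuous_fst).prodMk continuous_snd)) }
  have hactopen : IsOpenMap (fun w : (H → G) × P H G => act w.1 w.2) :=
    isOpenMap_snd.comp Φ.isOpenMap
  have hml : ∀ b : H → G, Continuous (fun a : H → G => b * a) := fun b =>
    continuous_pi fun h => (continuous_of_discreteTopology (f := fun g : G => b h * g)).comp
      (continuous_apply h)
  let T : (H → G) → (H → G) × P H G ≃ₜ (H → G) × P H G := fun b =>
    { toFun := fun w => (b * w.1, w.2)
      invFun := fun w => (b⁻¹ * w.1, w.2)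
      left_inv := fun w => by simp
      right_inv := fun w => by simp
      continuous_toFun := ((hml b).comp continuous_fst).prodMk continuous_snd
      continuous_invFun := ((hml b⁻¹).comp continuous_fst).prodMk continuous_snd }
  let S : ι → Set ((H → G) × P H G) := fun k => {w | f (act w.1 w.2) = κ k (f w.2)}
  have hS : ∀ k, MeasurableSet (S k) := fun k =>
    measurableSet_eq_fun (hf.comp hact.measurable) ((hκ k).comp (hf.comp measurable_snd))
  choose U hU hSU using fun k => (hS k).residualEq_isOpen
  have e1 : ∀ k, ∀ᶠ w in residual ((H → G) × P H G), (w ∈ S k ↔ w ∈ U k) := by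
    intro k
    filter_upwards [hSU k] with w hw
    exact iff_of_eq hw
  obtain ⟨k, hk⟩ : ∃ k, (U k).Nonempty := by
    by_contra hcon
    push Not at hcon
    obtain ⟨w, _, hw⟩ := exists_of_residual (eventually_countable_forall.2 e1)
      (U := univ) isOpen_univ ⟨(1, fun _ _ => true), mem_univ _⟩
    obtain ⟨k, hk⟩ := hcov w.1 w.2
    have := (hw k).1 hk
    rw [hcon k] at this
    exact this
  obtain ⟨⟨a0, β0⟩, h0⟩ := hk
  obtain ⟨A1, B1, hA1, hB1, ha0, hβ0, hsub⟩ := isOpen_prod_iff.1 (hU k) a0 β0 h0
  obtain ⟨D, u, hu, hD⟩ := isOpen_pi_iff.mp hA1 a0 ha0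
  obtain ⟨h, hh⟩ := Infinite.exists_notMem_finset D
  have hN : IsOpen ((D : Set H).pi u ×ˢ B1) :=
    (isOpen_set_pi D.finite_toSet fun i hi => (hu i hi).1).prod hB1
  have hNne : ((D : Set H).pi u ×ˢ B1).Nonempty := ⟨(a0, β0), fun i hi => (hu i hi).2, hβ0⟩
  have r1 := e1 k
  have r2 : ∀ᶠ w in residual ((H → G) × P H G), ∀ g : G,
      (T (Pi.mulSingle h g) w ∈ S k ↔ T (Pi.mulSingle h g) w ∈ U k) := by
    rw [eventually_countable_forall]
    intro g
    exact (tendsto_residual_of_isOpenMap (T (Pi.mulSingle h g)).continuous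
      (T (Pi.mulSingle h g)).isOpenMap).eventually (e1 k)
  have r3 : ∀ᶠ w in residual ((H → G) × P H G), ∃ g : G,
      f (act (Pi.mulSingle h g) (act w.1 w.2)) ≠ f (act w.1 w.2) :=
    (tendsto_residual_of_isOpenMap hact hactopen).eventually (generic_moves hf hcl h)
  obtain ⟨w, ⟨hw1, hw2⟩, hr1, hr2, ⟨g, hg⟩⟩ := exists_of_residual (r1.and (r2.and r3)) hN hNne
  have hwU : w ∈ U k := hsub ⟨hD hw1, hw2⟩
  have hTU : T (Pi.mulSingle h g) w ∈ U k := by
    refine hsub ⟨hD ?_, hw2⟩
    intro i hi
    have hne : i ≠ h := fun hi' => hh (hi' ▸ hi)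
    have : ((Pi.mulSingle h g : H → G) * w.1) i = w.1 i := by
      rw [Pi.mul_apply, Pi.mulSingle_eq_of_ne hne, one_mul]
    change ((Pi.mulSingle h g : H → G) * w.1) i ∈ u i
    rw [this]
    exact hw1 i hi
  have h1 : f (act w.1 w.2) = κ k (f w.2) := hr1.2 hwU
  have h2 : f (act (Pi.mulSingle h g * w.1) w.2) = κ k (f w.2) := (hr2 g).2 hTU
  rw [act_mul] at h2
  exact hg (h2.trans h1.symm)

end

end Pool.Agent.W921.Jump
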